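import Mathlib

namespace Pool.Agent.H.MP_32aa3b_co

abbrev W (k : ℕ) : Type :=
  (Fin 3 × Fin (4 * k)) ⊕ (Fin 3 × Fin 24 × Fin k) ⊕
    (Fin 3 × {s : Finset (Fin 24) // s.card = 4} × Fin 21)

def Arc (k : ℕ) : W k → W k → Prop
  | .inl a, .inl b => (a.1 = b.1 ∧ a.2 ≠ b.2) ∨ b.1 = a.1 + 1
  | .inl a, .inr (.inl b) => a.1 = b.1
  | .inr (.inl a), .inr (.inr b) => a.1 = b.1 ∧ a.2.1 ∈ b.2.1.1
  | _, _ => False

theorem card_W (k : ℕ) : Fintype.card (W k) = 84 * k + 669438 := by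
  have h : Fintype.card {s : Finset (Fin 24) // s.card = 4} = 10626 := by
    rw [Fintype.card_finset_len]
    simp [Nat.choose]
  simp only [Fintype.card_sum, Fintype.card_prod, Fintype.card_fin, h]
  ring

theorem irrefl (k : ℕ) (v : W k) : ¬ Arc k v v := by
  rcases v with a | a | a
  · have : ∀ i : Fin 3, i ≠ i + 1 := by decide
    simp [Arc, this]
  · simp [Arc]
  · simp [Arc]

theorem le_ncard {V ι : Type} [Fintype V] [Fintype ι] (s : Set V) (f : ι → V)
    (hf : Function.Injective f) (h : ∀ i, f i ∈ s) : Fintype.card ι ≤ s.ncard := by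
  have h1 : Set.range f ⊆ s := by
    rintro _ ⟨i, rfl⟩
    exact h i
  have h2 := Set.ncard_le_ncard h1 (Set.toFinite s)
  rwa [Set.ncard_range_of_injective hf, Nat.card_eq_fintype_card] at h2

theorem indeg (k : ℕ) (v : W k) : 4 * k ≤ {u | Arc k u v}.ncard := by
  rcases v with b | b | b
  · have := le_ncard {u | Arc k u (.inl b)} (fun j : Fin (4 * k) => (.inl (b.1 - 1, j) : W k))
      (fun x y h => by simpa using h) (fun j => Or.inr (by simp))
    simpa using this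
  · have := le_ncard {u | Arc k u (.inr (.inl b))} (fun j : Fin (4 * k) => (.inl (b.1, j) : W k))
      (fun x y h => by simpa using h) (fun j => rfl)
    simpa using this
  · have := le_ncard {u | Arc k u (.inr (.inr b))}
      (fun j : b.2.1.1 × Fin k => (.inr (.inl (b.1, j.1.1, j.2)) : W k))
      (fun x y h => by
        simp only [Sum.inr.injEq, Sum.inl.injEq, Prod.mk.injEq, true_and] at h
        exact Prod.ext (Subtype.ext h.1) h.2) (fun j => ⟨rfl, j.1.2⟩)
    simpa [b.2.1.2] using this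

theorem indeg_eq (k : ℕ) (b : Fin 3 × Fin 24 × Fin k) :
    {u | Arc k u (.inr (.inl b))}.ncard = 4 * k := by
  have h : {u | Arc k u (.inr (.inl b))} =
      Set.range (fun j : Fin (4 * k) => (.inl (b.1, j) : W k)) := by
    ext u
    rcases u with a | a | a
    · simp only [Set.mem_setOf_eq, Arc, Set.mem_range, Sum.inl.injEq]
      constructor
      · intro h
        exact ⟨a.2, Prod.ext h.symm rfl⟩
      · rintro ⟨j, rfl⟩
        rfl
    · simp [Arc]
    · simp [Arc]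
  rw [h, Set.ncard_range_of_injective (fun x y h => by simpa using h)]
  simp

theorem to_inl {k : ℕ} {u : W k} {b : Fin 3 × Fin (4 * k)} (h : Arc k u (.inl b)) :
    ∃ a, u = .inl a ∧ (a.1 = b.1 ∨ b.1 = a.1 + 1) := by
  rcases u with a | a | a
  · exact ⟨a, rfl, h.imp And.left id⟩
  · exact h.elim
  · exact h.elim

theorem to_mid {k : ℕ} {u : W k} {b : Fin 3 × Fin 24 × Fin k} (h : Arc k u (.inr (.inl b))) :
    ∃ a, u = .inl a ∧ a.1 = b.1 := by
  rcases u with a | a | a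
  · exact ⟨a, rfl, h⟩
  · exact h.elim
  · exact h.elim

theorem to_low {k : ℕ} {u : W k} {b : Fin 3 × {s : Finset (Fin 24) // s.card = 4} × Fin 21}
    (h : Arc k u (.inr (.inr b))) : ∃ a, u = .inr (.inl a) ∧ a.1 = b.1 ∧ a.2.1 ∈ b.2.1.1 := by
  rcases u with a | a | a
  · exact h.elim
  · exact ⟨a, rfl, h⟩
  · exact h.elim

theorem big {k : ℕ} (hk : 0 < k) (Q : Finset (W k)) (hI : ∀ u ∈ Q, ∀ v ∈ Q, ¬ Arc k u v)
    (hR : ∀ v, v ∈ Q ∨ (∃ a ∈ Q, Arc k a v) ∨ (∃ a ∈ Q, ∃ b, Arc k a b ∧ Arc k b v) ∨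
      (∃ a ∈ Q, ∃ b c, Arc k a b ∧ Arc k b c ∧ Arc k c v)) : 22 ≤ Q.card := by
  classical
  obtain ⟨t, ht⟩ : ∃ t, (.inl t : W k) ∈ Q := by
    rcases hR (.inl (0, ⟨0, by omega⟩)) with h | ⟨a, ha, h⟩ | ⟨a, ha, b, h1, h⟩ |
      ⟨a, ha, b, c, h2, h1, h⟩
    · exact ⟨_, h⟩
    · obtain ⟨x, rfl, -⟩ := to_inl h
      exact ⟨_, ha⟩
    · obtain ⟨x, rfl, -⟩ := to_inl h
      obtain ⟨y, rfl, -⟩ := to_inl h1
      exact ⟨_, ha⟩
    · obtain ⟨x, rfl, -⟩ := to_inl h
      obtain ⟨y, rfl, -⟩ := to_inl h1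
      obtain ⟨z, rfl, -⟩ := to_inl h2
      exact ⟨_, ha⟩
  have hpart : ∀ a, (.inl a : W k) ∈ Q → a.1 = t.1 := by
    intro a ha
    have h1 := hI _ ha _ ht
    have h2 := hI _ ht _ ha
    simp only [Arc, not_or] at h1 h2
    have : ∀ i j : Fin 3, ¬ j = i + 1 → ¬ i = j + 1 → i = j := by decide
    exact this _ _ h1.2 h2.2
  have hlow : ∀ s y, (.inr (.inr (t.1 + 2, s, y)) : W k) ∈ Q ∨
      ∃ x ∈ s.1, ∃ j, (.inr (.inl (t.1 + 2, x, j)) : W k) ∈ Q := by
    intro s y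
    have n1 : ∀ i : Fin 3, i ≠ i + 2 := by decide
    have n2 : ∀ i : Fin 3, i + 2 ≠ i + 1 := by decide
    rcases hR (.inr (.inr (t.1 + 2, s, y))) with h | ⟨a, ha, h⟩ | ⟨a, ha, b, h1, h⟩ |
      ⟨a, ha, b, c, h2, h1, h⟩
    · exact Or.inl h
    · obtain ⟨⟨x1, x2, x3⟩, rfl, e1, e2⟩ := to_low h
      simp only at e1 e2
      subst e1
      exact Or.inr ⟨x2, e2, x3, ha⟩
    · exfalso
      obtain ⟨x, rfl, e1, -⟩ := to_low h
      obtain ⟨z, rfl, e2⟩ := to_mid h1
      have := hpart z ha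
      exact n1 t.1 (by rw [← this] at e1 ⊢; exact e2.trans e1)
    · exfalso
      obtain ⟨x, rfl, e1, -⟩ := to_low h
      obtain ⟨z, rfl, e2⟩ := to_mid h1
      obtain ⟨w, rfl, e3⟩ := to_inl h2
      have e4 := hpart w ha
      have e5 : z.1 = t.1 + 2 := e2.trans e1
      rw [e4, e5] at e3
      rcases e3 with e3 | e3
      · exact n1 _ e3
      · exact n2 _ e3
  have hc := Finset.card_erase_add_one ht
  let Y : Finset (Fin 24) := Finset.univ.filter fun x => ∃ j, (.inr (.inl (t.1 + 2, x, j)) : W k) ∈ Q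
  rcases le_or_gt 21 Y.card with hY | hY
  · have h1 : ∀ x : Fin 24, ∃ j : Fin k, x ∈ Y → (.inr (.inl (t.1 + 2, x, j)) : W k) ∈ Q := by
      intro x
      by_cases hx : x ∈ Y
      · obtain ⟨j, hj⟩ := (Finset.mem_filter.1 hx).2
        exact ⟨j, fun _ => hj⟩
      · exact ⟨⟨0, hk⟩, fun h => absurd h hx⟩
    choose g hg using h1
    have h2 : Y.card ≤ (Q.erase (.inl t)).card := by
      refine Finset.card_le_card_of_injOn (fun x => (.inr (.inl (t.1 + 2, x, g x)) : W k)) ?_ ?_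
      · intro x hx
        exact Finset.mem_coe.2 (Finset.mem_erase.2 ⟨by simp, hg x hx⟩)
      · intro x _ y _ h
        simp only [Sum.inr.injEq, Sum.inl.injEq, Prod.mk.injEq, true_and] at h
        exact h.1
    omega
  · have h1 : 4 ≤ Yᶜ.card := by
      rw [Finset.card_compl, Fintype.card_fin]
      omega
    obtain ⟨s, hs, hs4⟩ := Finset.exists_subset_card_eq h1
    have h2 : (Finset.univ : Finset (Fin 21)).card ≤ (Q.erase (.inl t)).card := by
      refine Finset.card_le_card_of_injOn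
        (fun y => (.inr (.inr (t.1 + 2, ⟨s, hs4⟩, y)) : W k)) ?_ ?_
      · intro y _
        refine Finset.mem_coe.2 (Finset.mem_erase.2 ⟨by simp, ?_⟩)
        rcases hlow ⟨s, hs4⟩ y with h | ⟨x, hx, j, hj⟩
        · exact h
        · exact absurd (Finset.mem_filter.2 ⟨Finset.mem_univ x, j, hj⟩)
            (Finset.mem_compl.1 (hs hx))
      · intro x _ y _ h
        simpa using h
    rw [Finset.card_univ, Fintype.card_fin] at h2
    omega

end Pool.Agent.H.MP_32aa3b_co
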